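import Pool.Agent.H317.AM.Cases

set_option autoImplicit false

open Monoid

universe u

namespace Pool.Agent.Results.MP_aade38_al.AbelianBase

variable {G : Bool → Type u} [∀ i, Group (G i)] {C : Type u} [Group C]

/-- The subgroup `⟨C, xCx⁻¹⟩` of the factor `G i`. -/
def gen (φ : ∀ i, C →* G i) (i : Bool) (x : G i) : Subgroup (G i) :=
  Subgroup.closure (Set.range (φ i) ∪ Set.range (fun c : C => x * φ i c * x⁻¹))

/-- The intersection `C ∩ x⁻¹Cx` formed in the factor `G i`, as a subgroup of `C`: the elements `c`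
with `x c x⁻¹ ∈ C`. -/
def meet (φ : ∀ i, C →* G i) (i : Bool) (x : G i) : Subgroup C :=
  (φ i).range.comap ((MulAut.conj x).toMonoidHom.comp (φ i))

/-- Let `A = G true`, `B = G false` be groups with a common subgroup `C`, proper in both, and let `K`
be a subgroup of `C` which is normal in `A` and in `B` (for instance `K = 1`). Then `A *_C B` has a
maximal subgroup in each of the following cases.
(1) Every subgroup of `C` containing `K` is normal in `C` (for instance `C` is abelian).
(2) Each of the two factors has an element `x` outside `C` which is outside `⟨C, xCx⁻¹⟩`, or which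
normalizes every subgroup `X` with `K ≤ X ≤ C ∩ xCx⁻¹`.
(3) One factor has elements `a ∉ ⟨C, aCa⁻¹⟩` and `s ∉ C`, and the other has an element `b ∉ C`, such
that `s` normalizes `C ∩ b⁻¹Cb` (for instance: some element of a factor, outside `C`, centralizes
`C`).
(4) Some factor has a normal subgroup `V` such that `C` and `V` generate it and `C ∩ V ≤ K`. -/
theorem result (φ : ∀ i, C →* G i)
    (hφ : ∀ i, Function.Injective (φ i)) (hs : ∀ i, ¬ Function.Surjective (φ i))
    (K : Subgroup C) (hK : ∀ i, (K.map (φ i)).Normal)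
    (h : (∀ X : Subgroup C, K ≤ X → X.Normal) ∨
      (∀ i, ∃ x : G i, x ∉ (φ i).range ∧ (x ∉ gen φ i x ∨
        ∀ X : Subgroup C, K ≤ X → X ≤ meet φ i x⁻¹ →
          x ∈ Subgroup.normalizer ((X.map (φ i) : Subgroup (G i)) : Set (G i)))) ∨
      (∃ i j : Bool, i ≠ j ∧ ∃ (a s : G i) (b : G j), a ∉ gen φ i a ∧ s ∉ (φ i).range ∧
        b ∉ (φ j).range ∧
        s ∈ Subgroup.normalizer (((meet φ j b).map (φ i) : Subgroup (G i)) : Set (G i))) ∨
      (∃ (i : Bool) (V : Subgroup (G i)), V.Normal ∧ (φ i).range ⊔ V = ⊤ ∧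
        (φ i).range ⊓ V ≤ K.map (φ i))) :
    ∃ M : Subgroup (PushoutI φ), IsCoatom M := by
  have e : ∀ i (x : G i), Pool.Agent.H317.AM.pull φ i x ⊤ = meet φ i x := by
    intro i x
    show ((⊤ : Subgroup C).map (φ i)).comap _ = (φ i).range.comap _
    rw [MonoidHom.range_eq_map]
  rcases h with h | h | ⟨i, j, hij, a, s, b, ha, hs', hb, hn⟩ | ⟨i, V, hV, h1, h2⟩
  · exact Pool.Agent.H317.AM.caseDed hφ hs hK h
  · refine Pool.Agent.H317.AM.caseNZ hφ hK fun i => ?_
    obtain ⟨x, hx, hx'⟩ := h i
    refine ⟨x, hx, hx'.imp id fun hx' X hX hX' => hx' X hX ?_⟩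
    rwa [e] at hX'
  · refine Pool.Agent.H317.AM.caseNorm hφ hij (a := a) (s := s) (b := b) ha hs' hb ?_
    rw [e]
    exact hn
  · exact Pool.Agent.H317.AM.caseSplit hφ hs hK i V hV h1 h2

end Pool.Agent.Results.MP_aade38_al.AbelianBase
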